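import Pool.Agent.Y716.D.ZeroCycle
import Pool.Agent.Q59.ZC.Local

/-!
# The Hasse principle for 100% of the cubic hypersurfaces over all number fields of degree prime to 3

Let `n ≥ 3`. For `100%` of the integral cubic forms `f` in `n + 1` variables the smooth cubic
hypersurface `f = 0` has the following property: if there is a number field `L` of degree prime to
three such that it has points over all the completions of `L`, then it has a rational point. So for
`100%` of the `f` the Hasse principle holds over all number fields of degree prime to `3` at once, and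
the answer does not depend on the field.
-/

set_option autoImplicit false

namespace Pool.Agent.Results.MP_03ef3d_ag.CubicsOverAllFields

open Filter Topology

/-- The cubic forms in `n + 1` variables whose coefficients are integers of absolute value at
most `H`. -/
def Forms (n H : ℕ) : Set (MvPolynomial (Fin (n + 1)) ℤ) :=
  {f | f.IsHomogeneous 3 ∧ ∀ m, |f.coeff m| ≤ (H : ℤ)}

/-- The hypersurface `f = 0` in `ℙⁿ` is smooth: there is no point over a field of characteristic
zero at which `f` and all its partial derivatives vanish. -/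
def Smooth {n : ℕ} (f : MvPolynomial (Fin (n + 1)) ℤ) : Prop :=
  ∀ (K : Type) [Field K] [CharZero K] (x : Fin (n + 1) → K), x ≠ 0 → MvPolynomial.aeval x f = 0 →
    ∃ i, MvPolynomial.aeval x (MvPolynomial.pderiv i f) ≠ 0

/-- The hypersurface `f = 0` in `ℙⁿ` has a point over the field `L`. -/
def HasPoint {n : ℕ} (f : MvPolynomial (Fin (n + 1)) ℤ) (L : Type) [Field L] : Prop :=
  ∃ x : Fin (n + 1) → L, x ≠ 0 ∧ MvPolynomial.aeval x f = 0

/-- The hypersurface `f = 0` has points over all the completions of the number field `L` at its finite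
places: these completions are the fields `M = ℚ_p(σ(L))` for the embeddings `σ` of `L` into finite
extensions of the fields `ℚ_p`. (A cubic hypersurface always has real points.) -/
def LocallySoluble {n : ℕ} (f : MvPolynomial (Fin (n + 1)) ℤ) (L : Type) [Field L] : Prop :=
  ∀ (p : ℕ) [Fact p.Prime] (M : Type) [Field M] [Algebra ℚ_[p] M] [FiniteDimensional ℚ_[p] M]
    (σ : L →+* M), Algebra.adjoin ℚ_[p] (Set.range σ) = ⊤ → HasPoint f M

/-- The hypersurface `f = 0` has points over all the completions of some number field of degree not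
divisible by three. -/
def SomewhereLocallySoluble {n : ℕ} (f : MvPolynomial (Fin (n + 1)) ℤ) : Prop :=
  ∃ (L : Type) (_ : Field L) (_ : NumberField L), ¬ 3 ∣ Module.finrank ℚ L ∧ LocallySoluble f L

theorem ncard_one (n : ℕ) (P : MvPolynomial (Fin (n + 1)) ℤ → Prop)
    (Q : (Fin 1 → MvPolynomial (Fin (n + 1)) ℤ) → Prop) (h : ∀ f, Q (fun _ => f) ↔ P f) (H : ℕ) :
    ({f | f ∈ Forms n H ∧ P f} : Set _).ncard =
    ({f : Fin 1 → MvPolynomial (Fin (n + 1)) ℤ | (∀ j, (f j).IsHomogeneous ((fun _ => 1) j + 2) ∧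
      ∀ m, |(f j).coeff m| ≤ (H : ℤ)) ∧ Q f} : Set _).ncard := by
  have h1 : ({f : Fin 1 → MvPolynomial (Fin (n + 1)) ℤ | (∀ j, (f j).IsHomogeneous (1 + 2) ∧
      ∀ m, |(f j).coeff m| ≤ (H : ℤ)) ∧ Q f} : Set _) =
      (fun (f : MvPolynomial (Fin (n + 1)) ℤ) (_ : Fin 1) => f) '' {f | f ∈ Forms n H ∧ P f} := by
    ext g
    constructor
    · intro hg
      refine ⟨g 0, ⟨hg.1 0, (h (g 0)).mp ?_⟩, ?_⟩
      · have : (fun _ : Fin 1 => g 0) = g := funext fun j => by rw [Subsingleton.elim j 0]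
        rw [this]; exact hg.2
      · exact funext fun j => by rw [Subsingleton.elim j 0]
    · rintro ⟨f, hf, rfl⟩
      exact ⟨fun _ => hf.1, (h f).mpr hf.2⟩
  rw [h1, Set.ncard_image_of_injective]
  intro f g hfg
  exact congrFun hfg 0

theorem smooth_iff {n : ℕ} (f : MvPolynomial (Fin (n + 1)) ℤ) :
    Pool.Agent.Y697.C13.SmoothS (fun _ : Fin 1 => f) ↔ Smooth f := by
  constructor
  · intro hf K _ _ x hx h0
    obtain ⟨i, hi⟩ := hf K x (fun _ => 1) hx (fun h => one_ne_zero (congrFun h 0)) (fun _ => h0)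
    exact ⟨i, fun h1 => hi (by simp [h1])⟩
  · intro hf K _ _ x l hx hl h0
    obtain ⟨i, hi⟩ := hf K x hx (h0 0)
    have hl0 : l 0 ≠ 0 := fun h1 => hl (funext fun j => by rw [Subsingleton.elim j 0, h1]; rfl)
    exact ⟨i, by simpa using ⟨hl0, hi⟩⟩

theorem els_of_rational {n : ℕ} {f : MvPolynomial (Fin (n + 1)) ℤ} (h : HasPoint f ℚ)
    (K : Type) [Field K] [CharZero K] : HasPoint f K := by
  obtain ⟨x, hx, h0⟩ := h
  refine ⟨fun i => algebraMap ℚ K (x i), ?_, ?_⟩
  · intro h
    apply hx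
    funext i
    have := congrFun h i
    exact (algebraMap ℚ K).injective (by simpa using this)
  · have := MvPolynomial.aeval_algebraMap_apply K x f
    rw [h0, map_zero] at this
    exact this

/-- a cubic hypersurface with points over the completions of a number field of degree prime to three
has points over all the completions of `ℚ` -/
theorem els_iff {n : ℕ} (hn : 3 ≤ n) {f : MvPolynomial (Fin (n + 1)) ℤ} (hf : f.IsHomogeneous 3) :
    SomewhereLocallySoluble f ↔ Pool.Agent.Y716.C.ElsS (fun _ : Fin 1 => f) := by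
  constructor
  · rintro ⟨L, _, _, h3, hL⟩
    refine ⟨?_, fun p hp => ?_⟩
    · obtain ⟨y, hy0, hy⟩ := Pool.Agent.Y214.CY.real_cubic (Fin (n + 1))
        (by rw [Fintype.card_fin]; omega) f hf
      exact ⟨y, hy0, fun _ => hy⟩
    · obtain ⟨M, _, _, _, σ, h1, h2⟩ := Pool.Agent.Q59.ZC.exists_completion p (l := 3) L h3
      obtain ⟨x, hx0, hx⟩ := hL p M σ h1
      obtain ⟨y, hy0, hy⟩ := Pool.Agent.Y214.CY.coray (Fin (n + 1)) p M h2 f hf x hx0 hx
      exact ⟨y, hy0, fun _ => hy⟩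
  · rintro ⟨-, h2⟩
    refine ⟨ℚ, inferInstance, inferInstance, by rw [Module.finrank_self]; norm_num, ?_⟩
    intro p _ M _ _ _ σ _
    obtain ⟨x, hx0, hx⟩ := h2 p
    refine ⟨fun i => algebraMap ℚ_[p] M (x i), ?_, ?_⟩
    · intro h
      apply hx0
      funext i
      have := congrFun h i
      exact (algebraMap ℚ_[p] M).injective (by simpa using this)
    · have := MvPolynomial.aeval_algebraMap_apply M x f
      rw [hx 0, map_zero] at this
      exact this

/-- **The Hasse principle over all number fields of degree prime to three for 100% of the cubic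
hypersurfaces.** (1) A positive proportion of the cubic forms in `n + 1 ≥ 4` variables is smooth and
has points over all the completions of some number field of degree prime to three. (2) 100% of these
have rational points. (3) So for 100% of all the cubic forms the Hasse principle holds over all number
fields of degree prime to three. -/
theorem result (n : ℕ) (hn : 3 ≤ n) :
    (∃ c : ℝ, 0 < c ∧ ∀ᶠ H : ℕ in atTop, c * ((Forms n H).ncard : ℝ) ≤
      (({f | f ∈ Forms n H ∧ Smooth f ∧ SomewhereLocallySoluble f} : Set _).ncard : ℝ)) ∧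
    Tendsto (fun H : ℕ =>
      (({f | f ∈ Forms n H ∧ Smooth f ∧ HasPoint f ℚ} : Set _).ncard : ℝ) /
      (({f | f ∈ Forms n H ∧ Smooth f ∧ SomewhereLocallySoluble f} : Set _).ncard : ℝ))
      atTop (𝓝 1) ∧
    Tendsto (fun H : ℕ =>
      (({f | f ∈ Forms n H ∧ Smooth f ∧ ∀ (L : Type) [Field L] [NumberField L],
        ¬ 3 ∣ Module.finrank ℚ L → LocallySoluble f L → HasPoint f L} : Set _).ncard : ℝ) /
      ((Forms n H).ncard : ℝ)) atTop (𝓝 1) := by
  classical
  have hcard : (1 : ℕ) + 3 ≤ Fintype.card (Fin (n + 1)) := by rw [Fintype.card_fin]; omega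
  have hdeg : ∑ j : Fin 1, ((fun _ => 1) j + 2) + 1 ≤ Fintype.card (Fin (n + 1)) := by
    rw [Fintype.card_fin]; simp; omega
  have hpos := Pool.Agent.Y716.D.pos_all (Fin (n + 1)) (s := 1) le_rfl hcard (fun _ => 1) hdeg
  have hhp := Pool.Agent.Y716.D.hp_smooth_all (Fin (n + 1)) (s := 1) le_rfl hcard (fun _ => 1) hdeg
  have hT : ∀ (P : MvPolynomial (Fin (n + 1)) ℤ → Prop)
      (Q : (Fin 1 → MvPolynomial (Fin (n + 1)) ℤ) → Prop) (_ : ∀ f, Q (fun _ => f) ↔ P f) (H : ℕ),
      ({f | f ∈ Forms n H ∧ P f} : Set _).ncard =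
        ((Pool.Agent.Y716.C.sysZ (Fin (n + 1)) (fun _ : Fin 1 => 1) (H : ℝ)).filter Q).card := by
    intro P Q h H
    rw [ncard_one n P Q h H, Pool.Agent.Y487.C8.ncard_eq_filterS]
  have hall : ∀ H : ℕ, (Forms n H).ncard =
      (Pool.Agent.Y716.C.sysZ (Fin (n + 1)) (fun _ : Fin 1 => 1) (H : ℝ)).card := by
    intro H
    have := hT (fun _ => True) (fun _ => True) (fun _ => Iff.rfl) H
    simp only [and_true, Finset.filter_true] at this
    rw [← this]
    rfl
  have hset : ∀ H : ℕ, ({f | f ∈ Forms n H ∧ Smooth f ∧ SomewhereLocallySoluble f} : Set _) =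
      {f | f ∈ Forms n H ∧ Smooth f ∧ Pool.Agent.Y716.C.ElsS (fun _ : Fin 1 => f)} := by
    intro H
    ext f
    exact and_congr_right fun hf => and_congr_right fun _ => els_iff hn hf.1
  have hfinA : ∀ H : ℕ, (Forms n H).Finite := by
    intro H
    have h1 : ({f : Fin 1 → MvPolynomial (Fin (n + 1)) ℤ |
        f ∈ Pool.Agent.Y716.C.sysZ (Fin (n + 1)) (fun _ : Fin 1 => 1) (H : ℝ)} :
        Set _).Finite := Finset.finite_toSet _
    refine (h1.image (fun f => f 0)).subset ?_
    rintro f hf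
    refine ⟨fun _ => f, ?_, rfl⟩
    rw [Set.mem_setOf_eq, Pool.Agent.Y716.C.mem_sysZ]
    intro j
    refine ⟨hf.1, fun m => ?_⟩
    have := hf.2 m
    have h3 : ((|f.coeff m| : ℤ) : ℝ) ≤ ((H : ℤ) : ℝ) := by exact_mod_cast this
    rw [Int.cast_abs] at h3
    simpa using h3
  have hp : ∃ c : ℝ, 0 < c ∧ ∀ᶠ H : ℕ in atTop, c * ((Forms n H).ncard : ℝ) ≤
      (({f | f ∈ Forms n H ∧ Smooth f ∧ SomewhereLocallySoluble f} : Set _).ncard : ℝ) := by
    obtain ⟨c, hc, H₀, h⟩ := hpos
    obtain ⟨H₁, h1⟩ := Pool.Agent.Y697.C13.smooth_dense (Fin (n + 1)) (fun _ : Fin 1 => 1) (c / 2)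
      (by positivity)
    refine ⟨c / 2, by positivity, ?_⟩
    filter_upwards [eventually_ge_atTop ⌈H₀⌉₊, eventually_ge_atTop ⌈H₁⌉₊] with H h2 h3
    have h4 := h (H : ℝ) ((Nat.le_ceil H₀).trans (by exact_mod_cast h2))
    have h5 := h1 (H : ℝ) ((Nat.le_ceil H₁).trans (by exact_mod_cast h3))
    rw [hset, hall, hT (fun f => Smooth f ∧ Pool.Agent.Y716.C.ElsS (fun _ : Fin 1 => f))
      (fun f => Pool.Agent.Y697.C13.SmoothS f ∧ Pool.Agent.Y716.C.ElsS f)
      (fun f => and_congr (smooth_iff f) Iff.rfl) H]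
    have h7 : (((Pool.Agent.Y716.C.sysZ (Fin (n + 1)) (fun _ : Fin 1 => 1) (H : ℝ)).filter
        (fun f => ∃ x : Fin (n + 1) → ℤ, x ≠ 0 ∧ ∀ j, MvPolynomial.eval x (f j) = 0)).card : ℝ) ≤
        ((Pool.Agent.Y716.C.sysZ (Fin (n + 1)) (fun _ : Fin 1 => 1) (H : ℝ)).filter
        (fun f => Pool.Agent.Y697.C13.SmoothS f ∧ Pool.Agent.Y716.C.ElsS f)).card +
        ((Pool.Agent.Y716.C.sysZ (Fin (n + 1)) (fun _ : Fin 1 => 1) (H : ℝ)).filter
        (fun f => ¬ Pool.Agent.Y697.C13.SmoothS f)).card :=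
      Pool.Agent.Y716.C.card_filter_le_add' _ _ _ _ (fun f _ hf => by
        by_cases hs : Pool.Agent.Y697.C13.SmoothS f
        · exact Or.inl ⟨hs, Pool.Agent.Y487.C8.sol_elsS hf⟩
        · exact Or.inr hs)
    have h9 : c * ((Pool.Agent.Y716.C.sysZ (Fin (n + 1)) (fun _ : Fin 1 => 1) (H : ℝ)).card : ℝ) ≤
      (((Pool.Agent.Y716.C.sysZ (Fin (n + 1)) (fun _ : Fin 1 => 1) (H : ℝ)).filter
        (fun f => ∃ x : Fin (n + 1) → ℤ, x ≠ 0 ∧ ∀ j, MvPolynomial.eval x (f j) = 0)).card : ℝ) := by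
      convert h4
    have h10 : (((Pool.Agent.Y716.C.sysZ (Fin (n + 1)) (fun _ : Fin 1 => 1) (H : ℝ)).filter
        (fun f => ¬ Pool.Agent.Y697.C13.SmoothS f)).card : ℝ) ≤
        c / 2 * (Pool.Agent.Y716.C.sysZ (Fin (n + 1)) (fun _ : Fin 1 => 1) (H : ℝ)).card := by
      convert h5
    have h13 : c / 2 * ((Pool.Agent.Y716.C.sysZ (Fin (n + 1)) (fun _ : Fin 1 => 1)
        (H : ℝ)).card : ℝ) ≤
      ((Pool.Agent.Y716.C.sysZ (Fin (n + 1)) (fun _ : Fin 1 => 1) (H : ℝ)).filter
        (fun f => Pool.Agent.Y697.C13.SmoothS f ∧ Pool.Agent.Y716.C.ElsS f)).card := by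
      have h11 := h9.trans (h7.trans (by gcongr))
      linarith
    convert h13
  have hr : Tendsto (fun H : ℕ =>
      (({f | f ∈ Forms n H ∧ Smooth f ∧ HasPoint f ℚ} : Set _).ncard : ℝ) /
      (({f | f ∈ Forms n H ∧ Smooth f ∧ SomewhereLocallySoluble f} : Set _).ncard : ℝ))
      atTop (𝓝 1) := by
    refine hhp.congr fun H => ?_
    rw [hset, ncard_one n (fun f => Smooth f ∧ HasPoint f ℚ)
      (fun f => Pool.Agent.Y697.C13.SmoothS f ∧
        ∃ x : Fin (n + 1) → ℚ, x ≠ 0 ∧ ∀ j, MvPolynomial.aeval x (f j) = 0)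
      (fun f => and_congr (smooth_iff f) (by unfold HasPoint; simp only [forall_const])) H,
      ncard_one n (fun f => Smooth f ∧ Pool.Agent.Y716.C.ElsS (fun _ : Fin 1 => f))
      (fun f => Pool.Agent.Y697.C13.SmoothS f ∧ Pool.Agent.Y716.C.ElsS f)
      (fun f => and_congr (smooth_iff f) Iff.rfl) H]
  refine ⟨hp, hr, ?_⟩
  -- the set of the `f` which violate the last property
  have hsm : Tendsto (fun H : ℕ => (({f | f ∈ Forms n H ∧ ¬ Smooth f} : Set _).ncard : ℝ) /
      ((Forms n H).ncard : ℝ)) atTop (𝓝 0) := by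
    rw [Metric.tendsto_nhds]
    intro ε hε
    obtain ⟨H₁, h1⟩ := Pool.Agent.Y697.C13.smooth_dense (Fin (n + 1)) (fun _ : Fin 1 => 1) (ε / 2)
      (by positivity)
    filter_upwards [eventually_ge_atTop ⌈H₁⌉₊] with H h3
    have h5 := h1 (H : ℝ) ((Nat.le_ceil H₁).trans (by exact_mod_cast h3))
    have h6 : ((({f | f ∈ Forms n H ∧ ¬ Smooth f} : Set _).ncard : ℝ)) ≤
        ε / 2 * ((Forms n H).ncard : ℝ) := by
      rw [hall, hT (fun f => ¬ Smooth f) (fun f => ¬ Pool.Agent.Y697.C13.SmoothS f)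
        (fun f => not_congr (smooth_iff f)) H]
      convert h5
    rw [Real.dist_eq, sub_zero, abs_of_nonneg (by positivity)]
    rcases (Nat.cast_nonneg (α := ℝ) (Forms n H).ncard).eq_or_lt with h7 | h7
    · rw [← h7, div_zero]
      exact hε
    · rw [div_lt_iff₀ h7]
      nlinarith
  have hbad : Tendsto (fun H : ℕ => (({f | f ∈ Forms n H ∧ Smooth f ∧ SomewhereLocallySoluble f ∧
      ¬ HasPoint f ℚ} : Set _).ncard : ℝ) / ((Forms n H).ncard : ℝ)) atTop (𝓝 0) := by
    have h1 : Tendsto (fun H : ℕ => 1 -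
      (({f | f ∈ Forms n H ∧ Smooth f ∧ HasPoint f ℚ} : Set _).ncard : ℝ) /
      (({f | f ∈ Forms n H ∧ Smooth f ∧ SomewhereLocallySoluble f} : Set _).ncard : ℝ))
      atTop (𝓝 0) := by
      have := hr.const_sub 1
      rwa [sub_self] at this
    obtain ⟨c, hc, hc'⟩ := hp
    refine squeeze_zero' (Eventually.of_forall fun H => by positivity) ?_ h1
    filter_upwards [hc'] with H hH
    set D : Set (MvPolynomial (Fin (n + 1)) ℤ) :=
      {f | f ∈ Forms n H ∧ Smooth f ∧ SomewhereLocallySoluble f}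
    set R : Set (MvPolynomial (Fin (n + 1)) ℤ) := {f | f ∈ Forms n H ∧ Smooth f ∧ HasPoint f ℚ}
    have hDfin : D.Finite := (hfinA H).subset fun f hf => hf.1
    have hRD : R ⊆ D := by
      rintro f ⟨h1, h2, h3⟩
      refine ⟨h1, h2, (els_iff hn h1.1).2 ⟨?_, fun p _ => ?_⟩⟩
      · obtain ⟨x, hx, h0⟩ := els_of_rational h3 ℝ
        exact ⟨x, hx, fun _ => h0⟩
      · obtain ⟨x, hx, h0⟩ := els_of_rational h3 ℚ_[p]
        exact ⟨x, hx, fun _ => h0⟩
    have hB : ({f | f ∈ Forms n H ∧ Smooth f ∧ SomewhereLocallySoluble f ∧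
      ¬ HasPoint f ℚ} : Set (MvPolynomial (Fin (n + 1)) ℤ)) = D \ R := by
      ext f
      constructor
      · rintro ⟨h1, h2, h3, h4⟩
        exact ⟨⟨h1, h2, h3⟩, fun h => h4 h.2.2⟩
      · rintro ⟨⟨h1, h2, h3⟩, h4⟩
        exact ⟨h1, h2, h3, fun h => h4 ⟨h1, h2, h⟩⟩
    rw [hB, Set.ncard_diff hRD (hDfin.subset hRD), Nat.cast_sub (Set.ncard_le_ncard hRD hDfin)]
    rcases (Nat.cast_nonneg (α := ℝ) D.ncard).eq_or_lt with h7 | h7
    · have h8 : (R.ncard : ℝ) = 0 := le_antisymm (by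
        rw [h7]; exact Nat.cast_le.2 (Set.ncard_le_ncard hRD hDfin)) (Nat.cast_nonneg _)
      rw [← h7, h8]
      simp
    · have h8 : (D.ncard : ℝ) ≤ ((Forms n H).ncard : ℝ) :=
        Nat.cast_le.2 (Set.ncard_le_ncard (fun f hf => hf.1) (hfinA H))
      have h9 : (R.ncard : ℝ) ≤ D.ncard := Nat.cast_le.2 (Set.ncard_le_ncard hRD hDfin)
      rw [one_sub_div h7.ne']
      exact div_le_div_of_nonneg_left (by linarith) h7 h8
  have hfin2 : Tendsto (fun H : ℕ => 1 - ((({f | f ∈ Forms n H ∧ ¬ Smooth f} : Set _).ncard : ℝ) /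
      ((Forms n H).ncard : ℝ) + (({f | f ∈ Forms n H ∧ Smooth f ∧ SomewhereLocallySoluble f ∧
      ¬ HasPoint f ℚ} : Set _).ncard : ℝ) / ((Forms n H).ncard : ℝ))) atTop (𝓝 1) := by
    have := (hsm.add hbad).const_sub 1
    rwa [add_zero, sub_zero] at this
  refine tendsto_of_tendsto_of_tendsto_of_le_of_le' hfin2 tendsto_const_nhds ?_
    (Eventually.of_forall fun H => ?_)
  · obtain ⟨c, hc, hc'⟩ := hp
    have hTpos : ∀ H : ℕ, 0 < ((Forms n H).ncard : ℝ) := by
      intro H
      have : (0 : MvPolynomial (Fin (n + 1)) ℤ) ∈ Forms n H :=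
        ⟨MvPolynomial.isHomogeneous_zero _ _ _, fun m => by simp⟩
      exact Nat.cast_pos.2 (Set.ncard_pos (hfinA H) |>.2 ⟨0, this⟩)
    refine Eventually.of_forall fun H => ?_
    have hsub : Forms n H ⊆ ({f | f ∈ Forms n H ∧ ¬ Smooth f} ∪ {f | f ∈ Forms n H ∧ Smooth f ∧
        SomewhereLocallySoluble f ∧ ¬ HasPoint f ℚ}) ∪
        {f | f ∈ Forms n H ∧ Smooth f ∧ ∀ (L : Type) [Field L] [NumberField L],
        ¬ 3 ∣ Module.finrank ℚ L → LocallySoluble f L → HasPoint f L} := by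
      intro f hf
      by_cases h1 : Smooth f
      · by_cases h2 : SomewhereLocallySoluble f ∧ ¬ HasPoint f ℚ
        · exact Or.inl (Or.inr ⟨hf, h1, h2⟩)
        · refine Or.inr ⟨hf, h1, fun L _ _ hL1 hL2 => ?_⟩
          have h3 : HasPoint f ℚ := by
            by_contra h4
            exact h2 ⟨⟨L, inferInstance, inferInstance, hL1, hL2⟩, h4⟩
          exact els_of_rational h3 L
      · exact Or.inl (Or.inl ⟨hf, h1⟩)
    have h1 : ((Forms n H).ncard : ℝ) ≤ ((({f | f ∈ Forms n H ∧ ¬ Smooth f} : Set _).ncard : ℝ) +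
        (({f | f ∈ Forms n H ∧ Smooth f ∧ SomewhereLocallySoluble f ∧
        ¬ HasPoint f ℚ} : Set _).ncard : ℝ)) +
        (({f | f ∈ Forms n H ∧ Smooth f ∧ ∀ (L : Type) [Field L] [NumberField L],
        ¬ 3 ∣ Module.finrank ℚ L → LocallySoluble f L → HasPoint f L} : Set _).ncard : ℝ) := by
      have h2 := Set.ncard_le_ncard hsub (((hfinA H).subset fun f hf => hf.1).union
        ((hfinA H).subset fun f hf => hf.1) |>.union ((hfinA H).subset fun f hf => hf.1))
      have h3 := h2.trans ((Set.ncard_union_le _ _).trans (Nat.add_le_add_right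
        (Set.ncard_union_le _ _) _))
      exact_mod_cast h3
    rw [← add_div, sub_le_iff_le_add, ← add_div, le_div_iff₀ (hTpos H), one_mul]
    linarith
  · exact div_le_one_of_le₀ (Nat.cast_le.2 (Set.ncard_le_ncard (fun f hf => hf.1) (hfinA H)))
      (Nat.cast_nonneg _)

end Pool.Agent.Results.MP_03ef3d_ag.CubicsOverAllFields
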