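import Pool.Agent.Q59.SW.Count
import Pool.Agent.Q59.SW.Field

/-!
# The Hasse principle for almost all Fano complete intersections, over all the number fields with
# suitable places above the small primes

For every `ε > 0` there is `w` such that all but a proportion `ε` of the systems `f` of integral forms
of degrees `d j ≥ 2`, `∑ d j ≤ n`, in `n + 1 ≥ 4` variables define a smooth complete intersection in
`ℙⁿ` which satisfies the Hasse principle over all the number fields `L`, of any degree, that have a real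
place and above every prime `p ≤ w` a place of degree one. For cubic hypersurfaces and intersections of
two quadrics more places are suitable. The completions of `L` above the primes `p > w` do not matter.
-/

set_option autoImplicit false

namespace Pool.Agent.Results.MP_03ef3d_ag.HasseOverSplitFields

open Filter Topology

/-- The systems of forms of the degrees `d j` in `n + 1` variables whose coefficients are integers of
absolute value at most `H`. -/
def Systems (n : ℕ) {s : ℕ} (d : Fin s → ℕ) (H : ℕ) :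
    Set (Fin s → MvPolynomial (Fin (n + 1)) ℤ) :=
  {f | ∀ j, (f j).IsHomogeneous (d j) ∧ ∀ m, |(f j).coeff m| ≤ (H : ℤ)}

/-- The forms `f j` define a smooth complete intersection in `ℙⁿ`: at every common zero over a field
of characteristic zero the gradients of the forms are linearly independent. -/
def Smooth {n s : ℕ} (f : Fin s → MvPolynomial (Fin (n + 1)) ℤ) : Prop :=
  ∀ (K : Type) [Field K] [CharZero K] (x : Fin (n + 1) → K) (l : Fin s → K), x ≠ 0 → l ≠ 0 →
    (∀ j, MvPolynomial.aeval x (f j) = 0) →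
    ∃ i, ∑ j, l j * MvPolynomial.aeval x (MvPolynomial.pderiv i (f j)) ≠ 0

/-- The subscheme `f = 0` of `ℙⁿ` has a point over the field `L`. -/
def HasPoint {n s : ℕ} (f : Fin s → MvPolynomial (Fin (n + 1)) ℤ) (L : Type) [Field L] : Prop :=
  ∃ x : Fin (n + 1) → L, x ≠ 0 ∧ ∀ j, MvPolynomial.aeval x (f j) = 0

/-- The field `M`, with the embedding `σ` of the number field `L`, is a completion of `L` at a place
above the prime `p`: a finite extension of `ℚ_p` generated by the image of `L`. -/
structure IsCompletion (p : ℕ) [Fact p.Prime] (L M : Type) [Field L] [Field M] [Algebra ℚ_[p] M]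
    (σ : L →+* M) : Prop where
  finite : FiniteDimensional ℚ_[p] M
  top : Algebra.adjoin ℚ_[p] (Set.range σ) = ⊤

/-- `f = 0` has points over all the completions of the number field `L` at the places above the primes
`p ≤ w` and at the real places. -/
def SolubleUpTo (w : ℕ) {n s : ℕ} (f : Fin s → MvPolynomial (Fin (n + 1)) ℤ) (L : Type)
    [Field L] : Prop :=
  (∀ (p : ℕ) [Fact p.Prime], p ≤ w → ∀ (M : Type) [Field M] [Algebra ℚ_[p] M] (σ : L →+* M),
    IsCompletion p L M σ → HasPoint f M) ∧
  ((L →+* ℝ) → HasPoint f ℝ)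

/-- The degrees `δ` of suitable places: `δ = 1`, for cubic hypersurfaces all `δ` prime to three, for
intersections of two quadrics all odd `δ`. -/
def SuitableDegree {s : ℕ} (d : Fin s → ℕ) (δ : ℕ) : Prop :=
  δ = 1 ∨ (s = 1 ∧ (∀ j, d j = 3) ∧ ¬ 3 ∣ δ) ∨ (s = 2 ∧ (∀ j, d j = 2) ∧ Odd δ)

/-- The number field `L` has a place of suitable degree above every prime `p ≤ w`, and a real place
(which is not needed for hypersurfaces of odd degree). -/
def Suitable (w : ℕ) {s : ℕ} (d : Fin s → ℕ) (L : Type) [Field L] : Prop :=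
  (∀ (p : ℕ) [Fact p.Prime], p ≤ w → ∃ (M : Type) (_ : Field M) (_ : Algebra ℚ_[p] M)
    (σ : L →+* M), IsCompletion p L M σ ∧ SuitableDegree d (Module.finrank ℚ_[p] M)) ∧
  ((s = 1 ∧ ∀ j, Odd (d j)) ∨ Nonempty (L →+* ℝ))

/-- For all the number fields `L` with a real place and with a place of suitable degree above every
prime `p ≤ w`: if `f = 0` has points over all the completions of `L` at the places above the primes
`p ≤ w` and at the real places, then it has a point over `ℚ` (hence over `L`). -/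
def HasseOverSuitable (w : ℕ) {n s : ℕ} (d : Fin s → ℕ)
    (f : Fin s → MvPolynomial (Fin (n + 1)) ℤ) : Prop :=
  ∀ (L : Type) [Field L] [NumberField L], Suitable w d L → SolubleUpTo w f L → HasPoint f ℚ

lemma point_of_bijective {n s : ℕ} {f : Fin s → MvPolynomial (Fin (n + 1)) ℤ} {K M : Type}
    [Field K] [Field M] [Algebra K M] (h1 : Module.finrank K M = 1) (h : HasPoint f M) :
    HasPoint f K := by
  obtain ⟨x, hx, h0⟩ := h
  have hb : Function.Bijective (algebraMap K M) :=
    Algebra.finrank_eq_one_iff_bijective_algebraMap.1 h1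
  choose y hy using fun i => hb.2 (x i)
  have hxy : x = fun i => algebraMap K M (y i) := funext fun i => (hy i).symm
  refine ⟨y, ?_, fun j => ?_⟩
  · intro h2
    apply hx
    rw [hxy, h2]
    funext i
    simp
  · have h2 := h0 j
    rw [hxy] at h2
    have h3 : MvPolynomial.aeval (fun i => algebraMap K M (y i)) (f j) =
        algebraMap K M (MvPolynomial.aeval y (f j)) :=
      MvPolynomial.aeval_algebraMap_apply M y (f j)
    rw [h3] at h2
    exact hb.1 (by rw [h2, map_zero])

/-- a point over a completion of suitable degree gives a point over `ℚ_p` -/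
lemma point_of_suitable {n s : ℕ} {d : Fin s → ℕ} {f : Fin s → MvPolynomial (Fin (n + 1)) ℤ}
    (hf : ∀ j, (f j).IsHomogeneous (d j)) {p : ℕ} [Fact p.Prime] {M : Type} [Field M]
    [Algebra ℚ_[p] M] [FiniteDimensional ℚ_[p] M]
    (h1 : SuitableDegree d (Module.finrank ℚ_[p] M)) (h : HasPoint f M) : HasPoint f ℚ_[p] := by
  rcases h1 with h1 | ⟨rfl, h1, h2⟩ | ⟨rfl, h1, h2⟩
  · exact point_of_bijective h1 h
  · obtain ⟨x, hx0, hx⟩ := h
    have hf0 : (f 0).IsHomogeneous 3 := by
      have := hf 0
      rwa [h1 0] at this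
    obtain ⟨y, hy0, hy⟩ := Pool.Agent.Y214.CY.coray (Fin (n + 1)) p M h2 (f 0) hf0 x hx0 (hx 0)
    exact ⟨y, hy0, fun j => by rw [Subsingleton.elim j 0]; exact hy⟩
  · obtain ⟨x, hx0, hx⟩ := h
    exact Pool.Agent.Y604.Z1.common_zero_of_odd (Fin (n + 1)) ℚ_[p] M h2 f
      (fun j => by have := hf j; rwa [h1 j] at this) x hx0 hx

/-- the case of a fixed `w` -/
lemma main {s : ℕ} (n : ℕ) (d : Fin s → ℕ) (hs : 1 ≤ s) (hn : 3 ≤ n) (hd : ∀ j, 2 ≤ d j)
    (hsum : ∑ j, d j ≤ n) (ε : ℝ) (hε : 0 < ε) :
    ∃ w : ℕ, ∀ᶠ H : ℕ in atTop, (1 - ε) * ((Systems n d H).ncard : ℝ) ≤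
      (({f | f ∈ Systems n d H ∧ Smooth f ∧ HasseOverSuitable w d f} : Set _).ncard : ℝ) := by
  obtain ⟨e, rfl⟩ : ∃ e : Fin s → ℕ, d = fun j => e j + 2 :=
    ⟨fun j => d j - 2, funext fun j => by
      have := hd j
      show d j = d j - 2 + 2
      omega⟩
  obtain ⟨h1, h2⟩ := Pool.Agent.Y716.D.dims hs hn hsum
  obtain ⟨w, hw⟩ := Pool.Agent.Q59.SW.hp_w (Fin (n + 1)) hs h1 e h2 ε hε
  refine ⟨w, ?_⟩
  filter_upwards [hw] with H hH
  refine le_trans hH (Nat.cast_le.2 (Set.ncard_le_ncard ?_
    ((Pool.Agent.Q59.ZC.Count.all_finite (Fin (n + 1)) e H).subset fun f hf => hf.1)))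
  rintro f ⟨hf, hsm, h⟩
  refine ⟨hf, hsm, fun L _ _ hL1 hL2 => h ⟨?_, fun p _ hp => ?_⟩⟩
  · rcases hL1.2 with ⟨rfl, h3⟩ | h3
    · obtain ⟨y, hy0, hy⟩ := Pool.Agent.Q59.SW.real_odd (Fin (n + 1))
        (by rw [Fintype.card_fin]; omega) (f 0) (h3 0) (hf 0).1
      exact ⟨y, hy0, fun j => by rw [Subsingleton.elim j 0]; exact hy⟩
    · exact hL2.2 h3.some
  · obtain ⟨M, _, _, σ, hσ, h4⟩ := hL1.1 p hp
    have := hσ.finite
    exact point_of_suitable (fun j => (hf j).1) h4 (hL2.1 p hp M σ hσ)

lemma systems_finite {s : ℕ} (n : ℕ) (d : Fin s → ℕ) (hd : ∀ j, 2 ≤ d j) (H : ℕ) :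
    (Systems n d H).Finite := by
  obtain ⟨e, rfl⟩ : ∃ e : Fin s → ℕ, d = fun j => e j + 2 :=
    ⟨fun j => d j - 2, funext fun j => by
      have := hd j
      show d j = d j - 2 + 2
      omega⟩
  exact Pool.Agent.Q59.ZC.Count.all_finite (Fin (n + 1)) e H

lemma hasse_mono {w w' n s : ℕ} {d : Fin s → ℕ} {f : Fin s → MvPolynomial (Fin (n + 1)) ℤ}
    (h : w ≤ w') (hf : HasseOverSuitable w d f) : HasseOverSuitable w' d f :=
  fun L _ _ h1 h2 => hf L ⟨fun p _ hp => h1.1 p (hp.trans h), h1.2⟩
    ⟨fun p _ hp => h2.1 p (hp.trans h), h2.2⟩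

/-- **The Hasse principle for almost all Fano complete intersections over all the number fields with
suitable places above the small primes.** Let `n ≥ 3`, `s ≥ 1`, `d j ≥ 2`, `∑ d j ≤ n`.
(1) For every `ε > 0` there is `w` such that for all but a proportion `ε` of the systems `f` of integral
forms of degrees `d j` in `n + 1` variables: `f = 0` is a smooth complete intersection, and for all the
number fields `L` with a real place and with a place of suitable degree above every prime `p ≤ w`: if
`f = 0` has points over all the completions of `L` at the places above the primes `p ≤ w` and at the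
real places, then it has a point over `ℚ`. (2) For all functions `W` which tend to infinity, this holds
for `w = W H` for 100% of the systems with coefficients bounded by `H`, `H → ∞`. (3) For all `w` there
are such number fields `L` of every degree. -/
theorem result {s : ℕ} (n : ℕ) (d : Fin s → ℕ) (hs : 1 ≤ s) (hn : 3 ≤ n) (hd : ∀ j, 2 ≤ d j)
    (hsum : ∑ j, d j ≤ n) :
    (∀ ε : ℝ, 0 < ε → ∃ w : ℕ, ∀ᶠ H : ℕ in atTop, (1 - ε) * ((Systems n d H).ncard : ℝ) ≤
      (({f | f ∈ Systems n d H ∧ Smooth f ∧ HasseOverSuitable w d f} : Set _).ncard : ℝ)) ∧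
    (∀ W : ℕ → ℕ, Tendsto W atTop atTop → Tendsto (fun H : ℕ =>
      (({f | f ∈ Systems n d H ∧ Smooth f ∧ HasseOverSuitable (W H) d f} : Set _).ncard : ℝ) /
      ((Systems n d H).ncard : ℝ)) atTop (𝓝 1)) ∧
    (∀ w m : ℕ, 1 ≤ m → ∃ (L : Type) (_ : Field L) (_ : NumberField L),
      Module.finrank ℚ L = m ∧ Suitable w d L) := by
  refine ⟨main n d hs hn hd hsum, fun W hW => ?_, fun w m hm => ?_⟩
  · rw [Metric.tendsto_nhds]
    intro ε hε
    obtain ⟨w, hw⟩ := main n d hs hn hd hsum (ε / 2) (by positivity)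
    filter_upwards [hw, hW.eventually_ge_atTop w] with H hH hWH
    have hfin := systems_finite n d hd H
    have hpos : 0 < ((Systems n d H).ncard : ℝ) := by
      have : (0 : Fin s → MvPolynomial (Fin (n + 1)) ℤ) ∈ Systems n d H :=
        fun j => ⟨MvPolynomial.isHomogeneous_zero _ _ _, fun m => by simp⟩
      exact Nat.cast_pos.2 (Set.ncard_pos hfin |>.2 ⟨0, this⟩)
    have h1 : (({f | f ∈ Systems n d H ∧ Smooth f ∧ HasseOverSuitable w d f} :
        Set _).ncard : ℝ) ≤ (({f | f ∈ Systems n d H ∧ Smooth f ∧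
          HasseOverSuitable (W H) d f} : Set _).ncard : ℝ) :=
      Nat.cast_le.2 (Set.ncard_le_ncard (fun f hf => ⟨hf.1, hf.2.1, hasse_mono hWH hf.2.2⟩)
        (hfin.subset fun f hf => hf.1))
    have h2 : (({f | f ∈ Systems n d H ∧ Smooth f ∧ HasseOverSuitable (W H) d f} :
        Set _).ncard : ℝ) ≤ ((Systems n d H).ncard : ℝ) :=
      Nat.cast_le.2 (Set.ncard_le_ncard (fun f hf => hf.1) hfin)
    have h3 := hH.trans h1
    rw [← le_div_iff₀ hpos] at h3
    have h4 := div_le_one_of_le₀ h2 hpos.le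
    rw [Real.dist_eq, abs_lt]
    constructor <;> linarith
  · obtain ⟨L, _, _, h1, h2, h3⟩ := Pool.Agent.Q59.SW.exists_field w m hm
    refine ⟨L, inferInstance, inferInstance, h1, fun p _ hp => ?_, Or.inr h3⟩
    obtain ⟨σ⟩ := h2 p hp
    refine ⟨ℚ_[p], inferInstance, inferInstance, σ, ⟨inferInstance, ?_⟩,
      Or.inl (Module.finrank_self _)⟩
    exact Subsingleton.elim _ _

end Pool.Agent.Results.MP_03ef3d_ag.HasseOverSplitFields
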