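import Pool.Agent.Results.MP_03ef3d_ag.RandomCompleteIntersections
import Pool.Agent.Q319.WN.Form
import Pool.Agent.Q319.WN.Cast

/-!
# The Hasse principle for ALL Fano complete intersections near the multiples and the dilates of almost every real one

Let `d 1, …, d s ≥ 2`, `d 1 + ⋯ + d s ≤ n` and `n ≥ 3`, so that the smooth complete intersections of hypersurfaces of degrees
`d 1, …, d s` in `ℙⁿ` are Fano varieties. We consider systems of integral forms whose coefficients are close to those of the
multiples `k F` or of the dilates `v_k F` of a system `F` of real forms.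

1. For all real `F` with coefficients at most `Y` outside a set of measure at most `ε Y ^ m` (`m` the number of
   coefficients) and 100% of the `k ≤ R` the Hasse principle holds for ALL smooth complete intersections given by integral
   forms whose coefficients are within `w` of those of `k F` (`Y` large in terms of `ε` and `w`; every `R`).
2. For every sequence `v_k → ∞` and almost every real `F` it holds for ALL the smooth complete intersections within `w` of
   `v_k F`, for 100% of the `k < K_j`, for a sequence `K_j → ∞` which does not depend on `F`.
3. If `v_k` increases fast enough then for almost every real `F` and all large `k` it holds for ALL the smooth complete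
   intersections given by integral forms whose coefficients are within `k` of those of `v_k F`.

From Mathlib: `volume`: the Lebesgue measure; `MvPolynomial`, `IsHomogeneous`. That the Hasse principle holds for 100% of
the smooth complete intersections is from the starting file `RandomCompleteIntersections` (with the definitions of
`Smooth`, `LocallySoluble`, `HasRationalPoint`). `system`, `mons` are defined in `Pool.Agent.Q319.WN.Form`;
`MultiplesVec`, `DilatesVec`, `FastDilatesVec` in `Pool.Agent.Q319.WN.Vec`.
-/

set_option autoImplicit false

namespace Pool.Agent.Results.MP_03ef3d_ag.SystemsNearRealSystems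

open Filter Topology Pool.Agent.Q319.WN Pool.Agent.Results.MP_03ef3d_ag.RandomCompleteIntersections

/-- The indices of the coefficients of a system of forms of degrees `d j` in `n + 1` variables: pairs of a number `j` and a
monomial of degree `d j`. -/
abbrev Index {s : ℕ} (n : ℕ) (d : Fin s → ℕ) : Type := Σ j : Fin s, ↥(mons n (d j))

/-- The system of the integral forms with the coefficients `x` defines a smooth complete intersection which is a
counterexample to the Hasse principle. -/
def Counterexample {s : ℕ} (n : ℕ) (d : Fin s → ℕ) (x : Index n d → ℤ) : Prop :=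
  (Smooth (system (fun j => mons n (d j)) x) ∧ LocallySoluble (system (fun j => mons n (d j)) x)) ∧
    ¬ HasRationalPoint (system (fun j => mons n (d j)) x)

lemma local_of_rational {s n : ℕ} {f : Fin s → MvPolynomial (Fin (n + 1)) ℤ} (h : HasRationalPoint f) :
    LocallySoluble f := by
  obtain ⟨x, hx, h0⟩ := h
  have key : ∀ (K : Type) [Field K] [CharZero K], ∃ y : Fin (n + 1) → K, y ≠ 0 ∧
      ∀ j, MvPolynomial.aeval y (f j) = 0 := fun K _ _ =>
    ⟨fun i => (x i : K), cast_ne K hx, fun j => by rw [cast_aeval, h0 j, Rat.cast_zero]⟩
  exact ⟨key ℝ, fun p _ => key ℚ_[p]⟩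

lemma counter_null {s n : ℕ} (d : Fin s → ℕ) (hs : 1 ≤ s) (hd : ∀ j, 2 ≤ d j) (hdn : ∑ j, d j ≤ n)
    (hn : 3 ≤ n) : NullBox (Counterexample n d) := by
  have h := RandomCompleteIntersections.result s n d hs hd hdn hn
  refine null_of_ratio (A := fun x => Smooth (system (fun j => mons n (d j)) x) ∧
    LocallySoluble (system (fun j => mons n (d j)) x))
    (B := fun x => HasRationalPoint (system (fun j => mons n (d j)) x)) (h.congr fun H => ?_)
  have h1 := ncard_system (fun j => mons n (d j)) H (fun f => Smooth f ∧ LocallySoluble f)
  have h2 := ncard_system (fun j => mons n (d j)) H (fun f => (Smooth f ∧ LocallySoluble f) ∧ HasRationalPoint f)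
  rw [← h1, ← h2]
  have e1 : {f | f ∈ Systems d n H ∧ Smooth f ∧ HasRationalPoint f} =
      {f : Fin s → MvPolynomial (Fin (n + 1)) ℤ | (∀ j, (f j).support ⊆ mons n (d j) ∧
        ∀ m, |(f j).coeff m| ≤ (H : ℤ)) ∧ (Smooth f ∧ LocallySoluble f) ∧ HasRationalPoint f} := by
    ext f
    simp only [Systems, Set.mem_ofPred_eq, homog_iff]
    constructor
    · rintro ⟨a, b, c⟩
      exact ⟨a, ⟨b, local_of_rational c⟩, c⟩
    · rintro ⟨a, ⟨b, -⟩, c⟩
      exact ⟨a, b, c⟩
  have e2 : {f | f ∈ Systems d n H ∧ Smooth f ∧ LocallySoluble f} =
      {f : Fin s → MvPolynomial (Fin (n + 1)) ℤ | (∀ j, (f j).support ⊆ mons n (d j) ∧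
        ∀ m, |(f j).coeff m| ≤ (H : ℤ)) ∧ Smooth f ∧ LocallySoluble f} := by
    ext f
    simp only [Systems, Set.mem_ofPred_eq, homog_iff]
  rw [e1, e2]

/-- Let `d j ≥ 2`, `∑ d j ≤ n`, `n ≥ 3`. The property `Counterexample n d` of systems of integral forms of degrees `d j` in
`n + 1` variables (a smooth complete intersection which is a counterexample to the Hasse principle) is
1. rare at the multiples `k F` of almost every system `F` of real forms,
2. rare at the dilates `v k F`, for every sequence `v k → ∞` and almost every `F`,
3. absent within the distance `k` of `v k F` for all large `k`, for every fast sequence `v k` and almost every `F`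
(see `MultiplesVec`, `DilatesVec` and `FastDilatesVec` for the precise statements). -/
theorem result (s n : ℕ) (d : Fin s → ℕ) (hs : 1 ≤ s) (hd : ∀ j, 2 ≤ d j) (hdn : ∑ j, d j ≤ n)
    (hn : 3 ≤ n) :
    MultiplesVec (Counterexample n d) ∧ DilatesVec (fun _ => Counterexample n d) ∧
      FastDilatesVec (fun _ => Counterexample n d) := by
  have h := null_all (P := fun _ => Counterexample n d) fun _ => counter_null d hs hd hdn hn
  exact ⟨h.1 0, h.2⟩

end Pool.Agent.Results.MP_03ef3d_ag.SystemsNearRealSystems
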