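import Pool.Agent.Results.MP_03ef3d_ag.FanoDoubleCovers
import Pool.Agent.Q319.WN.Ratio

/-!
# The Hasse principle for ALL quadratic twists of Fano double covers near the multiples and the dilates of almost every real
number

Let `F(x; u, v) = A(x) u² + B(x) u v + D(x) v²` be a form of bidegree `(2 d, 2)` with integral coefficients such that the
divisor `F = 0` in `ℙⁿ × ℙ¹` is smooth, and let `X_a : w² = a F(x; u, v)` be the double covers of `ℙⁿ × ℙ¹`; they are Fano
varieties of dimension `n + 1` for `d ≤ n`. For almost all real numbers `y` of size `N ^ (1 - θ)` (the exceptional set has a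
measure at most `N ^ (1 - θ - c)`) and 100% of the `k ≤ N ^ θ` the Hasse principle holds for ALL the varieties `X_a`, `a`
squarefree, `||a| - k y| ≤ w`. There is a similar statement for the integers `a` near `α v_k`, for almost every real `α`.

From Mathlib: `Squarefree`; `volume`: the Lebesgue measure; `ℚ_[p]`: the `p`-adic numbers. That the Hasse principle holds for
100% of the squarefree `a` is from the starting file `FanoDoubleCovers` (with the definitions of `SmoothBranch` and
`HasPoint`), the count of the elements of arbitrary sets of integers in intervals at multiples of real numbers is from the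
starting files, too (`Pool.Agent.H438R2.DL`). `NullAtMultiples` is defined in `Pool.Agent.Q319.WN.Null` and
`NullAtDilates` in `Pool.Agent.Q319.WN.One`.
-/

set_option autoImplicit false

namespace Pool.Agent.Results.MP_03ef3d_ag.TwistsAtRealMultiples

open Finset Filter Topology Pool.Agent.Q319.WN Pool.Agent.Results.MP_03ef3d_ag.FanoDoubleCovers

/-- `a` is squarefree and the twist `X_a : w² = a F(x; u, v)` is a counterexample to the Hasse principle. -/
def Counterexample {n : ℕ} (A B D : MvPolynomial (Fin (n + 1)) ℤ) (a : ℤ) : Prop :=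
  Squarefree a ∧ HasPoint A B D a ℝ ∧ (∀ p : Nat.Primes, HasPoint A B D a ℚ_[(p : ℕ)]) ∧ ¬ HasPoint A B D a ℚ

lemma counter_null (n d : ℕ) (hn : 1 ≤ n) (hd : 1 ≤ d) (A B D : MvPolynomial (Fin (n + 1)) ℤ)
    (hA : A.IsHomogeneous (2 * d)) (hB : B.IsHomogeneous (2 * d)) (hD : D.IsHomogeneous (2 * d))
    (hs : SmoothBranch A B D) : Null (Counterexample A B D) :=
  null_of_sets (locallySoluble A B D) (globallySoluble A B D) (fun _ _ ha => ha.1)
    (fun _ _ ha => ⟨ha.1, ha.2.1, cast_point ℝ ha.2.2, fun p => cast_point _ ha.2.2⟩)
    (fun _ _ ha hP => ⟨⟨ha, hP.1, hP.2.1, hP.2.2.1⟩, fun h => hP.2.2.2 h.2.2⟩)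
    (FanoDoubleCovers.result n d hn hd A B D hA hB hD hs).2

/-- Let `n ≥ 1`, `d ≥ 1` and let `A`, `B`, `D` be integral forms of degree `2 d` in `n + 1` variables such that the divisor
`A u² + B u v + D v² = 0` in `ℙⁿ × ℙ¹` is smooth.
1. (multiples) For `0 < θ < 1` there is `c > 0` such that for all `ε > 0`, `w ≥ 0` and all large `N` the following holds for
   all real `y` with `N ^ (1 - θ) ≤ y ≤ 2 N ^ (1 - θ)` outside a set of measure at most `N ^ (1 - θ - c)`: for all
   `k ≤ N ^ θ` with at most `ε N ^ θ` exceptions the Hasse principle holds for ALL the double covers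
   `w² = a (A u² + B u v + D v²)`, `a` squarefree, `||a| - k y| ≤ w`.
2. (dilates) For all real `v k → ∞` there are `K 0 < K 1 < ...` such that for almost every real `α` and all `w` the Hasse
   principle holds for ALL these double covers with `a` squarefree, `|a - α v k| ≤ w`, for a proportion of the `k < K j`
   which tends to `1` as `j → ∞`. There are `g k` such that for all `v k ≥ g k` and almost every real `α`, for all large
   `k`, it holds for ALL squarefree `a` with `|a - α v k| ≤ k`. -/
theorem result (n d : ℕ) (hn : 1 ≤ n) (hd : 1 ≤ d) (A B D : MvPolynomial (Fin (n + 1)) ℤ)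
    (hA : A.IsHomogeneous (2 * d)) (hB : B.IsHomogeneous (2 * d)) (hD : D.IsHomogeneous (2 * d))
    (hs : SmoothBranch A B D) :
    NullAtMultiples (Counterexample A B D) ∧ NullAtDilates (fun _ => Counterexample A B D) := by
  have h := null_both (P := fun _ => Counterexample A B D) fun _ => counter_null n d hn hd A B D hA hB hD hs
  exact ⟨h.1 0, h.2⟩

end Pool.Agent.Results.MP_03ef3d_ag.TwistsAtRealMultiples
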